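import Pool.Agent.Helper12.NK.St

/-!
# Project NK (MP_d63854_co), module STA: step 1, `|Π(y)| ≥ deg y`
-/

set_option autoImplicit false

namespace Pool.Agent.Helper1.NK

open Pool.Agent.Helper12.NK
open Pool.Agent.Helper51.AJ (Planar)

variable {V : Type}

private theorem le_add (H : SimpleGraph V) (y : V) (N : Set V) : H ≤ add H y N := by
  intro a b h
  exact Or.inl h

private theorem rst_le_add (G : SimpleGraph V) (x y : V) (hxy : x ≠ y) :
    rst G {x}ᶜ ≤ add (rst G {x, y}ᶜ) y ({b | G.Adj y b} \ {x}) := by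
  intro a b h
  obtain ⟨h1, h2, h3⟩ := h
  have h2' : a ≠ x := h2
  have h3' : b ≠ x := h3
  by_cases ha : a = y
  · right
    left
    subst ha
    exact ⟨rfl, ⟨h1, h3'⟩, (G.ne_of_adj h1).symm⟩
  · by_cases hb : b = y
    · right
      right
      subst hb
      exact ⟨rfl, ⟨h1.symm, h2'⟩, ha⟩
    · left
      refine ⟨h1, ?_, ?_⟩
      · rintro (h | h)
        · exact h2' h
        · exact ha h
      · rintro (h | h)
        · exact h3' h
        · exact hb h

private theorem ncard_diff_ge [Finite V] (N S : Set V) (n k : ℕ) (hN : n + k ≤ N.ncard)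
    (hS : S.ncard ≤ k) : n ≤ (N \ S).ncard := by
  have h := Set.le_ncard_sdiff S N (Set.toFinite S)
  omega

private theorem card_pair (a b : V) : ({a, b} : Set V).ncard ≤ 2 := by
  refine (Set.ncard_insert_le a {b}).trans ?_
  rw [Set.ncard_singleton]

private theorem card_triple (a b c : V) : ({a, b, c} : Set V).ncard ≤ 3 := by
  refine (Set.ncard_insert_le a {b, c}).trans ?_
  have := card_pair b c
  omega

theorem hSTA : StKCA → StHCN → StTUT → StINS → StFPA → StSTA := by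
  intro hK hH hT hI hF V _ G hyp hN hD y
  have hmono := (hK V G Set.univ).2.2.2.2.2.1
  obtain ⟨c1, -, -, c4, c5⟩ := hH V G hyp
  -- the choice of `x(f)`
  have hex : ∀ f, ∃ x, G.Adj y f → x ≠ y ∧ x ≠ f ∧
      Planar (add (rst G {x, y}ᶜ) y ({b | G.Adj y b} \ {x, f})) := by
    intro f
    by_cases hf : G.Adj y f
    · obtain ⟨x, hx⟩ := hD y f hf
      exact ⟨x, fun _ => hx⟩
    · exact ⟨y, fun h => absurd h hf⟩
  choose x hx using hex
  have hpl : ∀ f, G.Adj y f → Planar (rst G {x f, y}ᶜ) := fun f hf =>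
    hmono _ _ (le_add _ _ _) (hx f hf).2.2
  have hyU : ∀ z : V, y ∉ ({z, y}ᶜ : Set V) := by
    intro z h
    exact h (Or.inr rfl)
  -- the faces
  have hface : ∀ f, G.Adj y f → ∃ F, IsFace G {x f, y}ᶜ F ∧ {b | G.Adj y b} \ {x f, f} ⊆ F := by
    intro f hf
    have hsub : {b | G.Adj y b} \ {x f, f} ⊆ ({x f, y}ᶜ : Set V) := by
      intro b hb
      obtain ⟨hb1, hb2⟩ := hb
      rintro (h | h)
      · exact hb2 (Or.inl h)
      · exact G.ne_of_adj hb1 h.symm
    have h3 : 3 ≤ ({b | G.Adj y b} \ {x f, f}).ncard :=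
      ncard_diff_ge _ _ 3 2 (c4 y) (card_pair _ _)
    obtain ⟨m, c, hc, hcN, -⟩ := hT V G {x f, y}ᶜ ({b | G.Adj y b} \ {x f, f}) y (c1 _ _) hsub h3
      (hyU _) (hx f hf).2.2
    exact ⟨Set.range c, ⟨m, c, hc, rfl⟩, hcN⟩
  -- the neighbours other than `x` lie in no face
  have hno : ∀ f, G.Adj y f → ∀ F, IsFace G {x f, y}ᶜ F → ¬ {b | G.Adj y b} \ {x f} ⊆ F := by
    intro f hf F hF1 hF2
    have h1 := hI V G {x f, y}ᶜ F _ y (c1 _ _) (hpl f hf) hF1 hF2 (hyU _)
    exact hN (x f) (hmono _ _ (rst_le_add G (x f) y (hx f hf).1) h1)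
  refine Set.ncard_le_ncard_of_injOn x ?_ ?_ (Set.toFinite _)
  · intro f hf
    exact ⟨(hx f hf).1, hpl f hf⟩
  · intro f hf f' hf' hff
    by_contra hne
    have hf1 : G.Adj y f := hf
    have hf1' : G.Adj y f' := hf'
    obtain ⟨F, hF1, hF2⟩ := hface f hf1
    obtain ⟨F', hF1', hF2'⟩ := hface f' hf1'
    rw [← hff] at hF1' hF2'
    have hFF : F ≠ F' := by
      intro h
      apply hno f hf1 F hF1
      intro b hb
      obtain ⟨hb1, hb2⟩ := hb
      by_cases hbf : b = f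
      · rw [h]
        apply hF2'
        refine ⟨hb1, ?_⟩
        rintro (h3 | h3)
        · exact hb2 h3
        · exact hne (hbf.symm.trans h3)
      · apply hF2
        refine ⟨hb1, ?_⟩
        rintro (h3 | h3)
        · exact hb2 h3
        · exact hbf h3
    have hM : ∀ b ∈ {b | G.Adj y b} \ {x f, f, f'}, b ∈ F ∧ b ∈ F' := by
      intro b hb
      obtain ⟨hb1, hb2⟩ := hb
      constructor
      · apply hF2
        refine ⟨hb1, ?_⟩
        rintro (h3 | h3)
        · exact hb2 (Or.inl h3)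
        · exact hb2 (Or.inr (Or.inl h3))
      · apply hF2'
        refine ⟨hb1, ?_⟩
        rintro (h3 | h3)
        · exact hb2 (Or.inl h3)
        · exact hb2 (Or.inr (Or.inr h3))
    obtain ⟨p1, p2, -⟩ := hF V G {x f, y}ᶜ (c1 _ _) (hpl f hf1)
    by_cases h6 : 6 ≤ {b | G.Adj y b}.ncard
    · have h3 : 3 ≤ ({b | G.Adj y b} \ {x f, f, f'}).ncard :=
        ncard_diff_ge _ _ 3 3 h6 (card_triple _ _ _)
      obtain ⟨a, b, c, ha, hb, hc, hab, hac, hbc⟩ := (Set.two_lt_ncard_iff (Set.toFinite _)).1 h3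
      exact p1 F F' hF1 hF1' hFF a b c (hM a ha).1 (hM b hb).1 (hM c hc).1 (hM a ha).2 (hM b hb).2
        (hM c hc).2 hab hbc hac
    · have h5 : {b | G.Adj y b}.ncard = 5 := le_antisymm (by omega) (c4 y)
      have h3 : 2 ≤ ({b | G.Adj y b} \ {x f, f, f'}).ncard :=
        ncard_diff_ge _ _ 2 3 h5.ge (card_triple _ _ _)
      obtain ⟨a, b, ha, hb, hab⟩ := (Set.one_lt_ncard_iff (Set.toFinite _)).1 h3
      exact c5 y h5 a b ha.1 hb.1
        (p2 F F' hF1 hF1' hFF a b (hM a ha).1 (hM b hb).1 (hM a ha).2 (hM b hb).2 hab)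

end Pool.Agent.Helper1.NK
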